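import Mathlib

/-!
# An identity of Euler (analysis)
-/

set_option autoImplicit false

open Filter Finset Topology

namespace Pool.Agent.Y515.SZ

/-- `∏_{i<n} (1 - q^(i+1))` -/
noncomputable def PQ (q : ℝ) (n : ℕ) : ℝ := ∏ i ∈ range n, (1 - q ^ (i + 1))

theorem PQ_succ (q : ℝ) (n : ℕ) : PQ q (n + 1) = PQ q n * (1 - q ^ (n + 1)) :=
  Finset.prod_range_succ _ _

theorem PQ_low {q : ℝ} (h0 : 0 < q) (h1 : q ≤ 1 / 2) (n : ℕ) :
    1 / 4 + (1 / 2) ^ (n + 2) ≤ PQ q (n + 1) := by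
  induction n with
  | zero =>
    unfold PQ
    simp
    linarith
  | succ n ih =>
    rw [PQ_succ]
    have h2 : q ^ (n + 1 + 1) ≤ (1 / 2) ^ (n + 1 + 1) := pow_le_pow_left₀ h0.le h1 _
    set x : ℝ := (1 / 2) ^ (n + 1 + 1) with hx
    have hx0 : 0 < x := by positivity
    have hx1 : x ≤ 1 / 4 := by
      have : x = (1 / 2) ^ n * (1 / 4) := by
        rw [hx, pow_succ, pow_succ]
        ring
      rw [this]
      have : (1 / 2 : ℝ) ^ n ≤ 1 := pow_le_one₀ (by norm_num) (by norm_num)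
      linarith
    have e : (1 / 2 : ℝ) ^ (n + 1 + 2) = x / 2 := by
      rw [hx, pow_succ]
      ring
    rw [e]
    have ih' : 1 / 4 + x ≤ PQ q (n + 1) := ih
    have h3 : 1 - x ≤ 1 - q ^ (n + 1 + 1) := by linarith
    calc 1 / 4 + x / 2 ≤ (1 / 4 + x) * (1 - x) := by nlinarith
      _ ≤ PQ q (n + 1) * (1 - q ^ (n + 1 + 1)) :=
        mul_le_mul ih' h3 (by linarith) (by linarith)

theorem PQ_pos {q : ℝ} (h0 : 0 < q) (h1 : q ≤ 1 / 2) (n : ℕ) : 1 / 4 ≤ PQ q n := by
  cases n with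
  | zero =>
    unfold PQ
    norm_num
  | succ n =>
    have := PQ_low h0 h1 n
    have h2 : (0 : ℝ) < (1 / 2) ^ (n + 2) := by positivity
    linarith

/-- the terms -/
noncomputable def tq (q z : ℝ) (n : ℕ) : ℝ := z ^ n / PQ q n

theorem tq_le {q : ℝ} (h0 : 0 < q) (h1 : q ≤ 1 / 2) (z : ℝ) (n : ℕ) :
    |tq q z n| ≤ 4 * |z| ^ n := by
  unfold tq
  have h2 := PQ_pos h0 h1 n
  rw [abs_div, abs_pow, abs_of_pos (by linarith : 0 < PQ q n), div_le_iff₀ (by linarith)]
  have h3 : 0 ≤ |z| ^ n := by positivity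
  nlinarith

theorem tq_summable {q : ℝ} (h0 : 0 < q) (h1 : q ≤ 1 / 2) {z : ℝ} (hz : |z| < 1) :
    Summable (tq q z) := by
  refine Summable.of_norm_bounded (g := fun n => 4 * |z| ^ n)
    ((summable_geometric_of_lt_one (abs_nonneg z) hz).mul_left 4) fun n => ?_
  rw [Real.norm_eq_abs]
  exact tq_le h0 h1 z n

/-- the function of Euler -/
noncomputable def FE (q z : ℝ) : ℝ := ∑' n, tq q z n

theorem FE_eq {q : ℝ} (h0 : 0 < q) (h1 : q ≤ 1 / 2) {z : ℝ} (hz : |z| < 1) :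
    FE q (z * q) = (1 - z) * FE q z := by
  have hzq : |z * q| < 1 := by
    rw [abs_mul, abs_of_pos h0]
    nlinarith [abs_nonneg z]
  have s1 := tq_summable h0 h1 hz
  have s2 := tq_summable h0 h1 hzq
  have e1 : FE q z - FE q (z * q) = ∑' n, (tq q z n - tq q (z * q) n) :=
    (s1.tsum_sub s2).symm
  have s3 : Summable fun n => tq q z n - tq q (z * q) n := s1.sub s2
  have e2 : ∑' n, (tq q z n - tq q (z * q) n) = ∑' n, (z * tq q z n) := by
    rw [s3.tsum_eq_zero_add]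
    have e3 : tq q z 0 - tq q (z * q) 0 = 0 := by
      unfold tq
      simp
    rw [e3, zero_add]
    refine tsum_congr fun n => ?_
    unfold tq
    have h2 := PQ_pos h0 h1 n
    have h3 := PQ_pos h0 h1 (n + 1)
    have h4 : PQ q n ≠ 0 := by linarith
    have h5 : PQ q (n + 1) ≠ 0 := by linarith
    rw [PQ_succ] at h5 ⊢
    have h6 : 1 - q ^ (n + 1) ≠ 0 := right_ne_zero_of_mul h5
    rw [mul_pow, ← sub_div, div_eq_iff h5]
    field_simp
    ring
  rw [e2, tsum_mul_left] at e1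
  have e4 : ∑' n, tq q z n = FE q z := rfl
  rw [e4] at e1
  linarith

theorem FE_iter {q : ℝ} (h0 : 0 < q) (h1 : q ≤ 1 / 2) {z : ℝ} (hz : |z| < 1) (n : ℕ) :
    FE q (z * q ^ n) = (∏ i ∈ range n, (1 - z * q ^ i)) * FE q z := by
  induction n with
  | zero => simp
  | succ n ih =>
    have h2 : |z * q ^ n| < 1 := by
      rw [abs_mul, abs_of_pos (pow_pos h0 n)]
      have : q ^ n ≤ 1 := pow_le_one₀ h0.le (by linarith)
      nlinarith [abs_nonneg z, pow_pos h0 n]
    rw [pow_succ, ← mul_assoc, FE_eq h0 h1 h2, ih, prod_range_succ]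
    ring

theorem FE_near {q : ℝ} (h0 : 0 < q) (h1 : q ≤ 1 / 2) {z : ℝ} (hz : |z| ≤ 1 / 2) :
    |FE q z - 1| ≤ 8 * |z| := by
  have hz1 : |z| < 1 := by linarith
  have s1 := tq_summable h0 h1 hz1
  have e1 : FE q z - 1 = ∑' n, tq q z (n + 1) := by
    unfold FE
    rw [s1.tsum_eq_zero_add]
    have : tq q z 0 = 1 := by
      unfold tq PQ
      simp
    rw [this]
    ring
  have s2 : Summable fun n => 4 * |z| * |z| ^ n :=
    (summable_geometric_of_lt_one (abs_nonneg z) hz1).mul_left _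
  rw [e1, ← Real.norm_eq_abs]
  refine (tsum_of_norm_bounded s2.hasSum fun n => ?_).trans ?_
  · rw [Real.norm_eq_abs]
    refine (tq_le h0 h1 z (n + 1)).trans (le_of_eq ?_)
    ring
  · rw [tsum_mul_left, tsum_geometric_of_lt_one (abs_nonneg z) hz1]
    have h2 : (1 - |z|)⁻¹ ≤ 2 := by
      rw [inv_le_comm₀ (by linarith) (by norm_num)]
      linarith
    have h3 := abs_nonneg z
    nlinarith

/-- the main statement -/
theorem main {q : ℝ} (h0 : 0 < q) (h1 : q ≤ 1 / 2) :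
    Tendsto (fun K => ∑ j ∈ range (K + 1), tq q (-q) j) atTop
      (𝓝 (∏' i : ℕ, (1 + q ^ (i + 1))⁻¹)) ∧ 0 < ∏' i : ℕ, (1 + q ^ (i + 1))⁻¹ := by
  have hq1 : |(-q)| < 1 := by
    rw [abs_neg, abs_of_pos h0]
    linarith
  -- the infinite product
  have hmul : Multipliable fun i : ℕ => (1 + q ^ (i + 1))⁻¹ := by
    have e : (fun i : ℕ => (1 + q ^ (i + 1))⁻¹) =
        fun i => 1 + ((1 + q ^ (i + 1))⁻¹ - 1) := by
      funext i
      ring
    rw [e]
    apply multipliable_one_add_of_summable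
    refine Summable.of_nonneg_of_le (fun i => norm_nonneg _) (fun i => ?_)
      ((summable_geometric_of_lt_one h0.le (by linarith)).mul_left q)
    have h2 : 0 < q ^ (i + 1) := pow_pos h0 _
    rw [Real.norm_eq_abs, abs_le]
    have h3 : (1 + q ^ (i + 1))⁻¹ ≤ 1 := inv_le_one_of_one_le₀ (by linarith)
    have h4 : 0 < q * q ^ i := mul_pos h0 (pow_pos h0 _)
    refine ⟨?_, by linarith⟩
    have h5 : 1 - q ^ (i + 1) ≤ (1 + q ^ (i + 1))⁻¹ := by
      rw [le_inv_comm₀ _ (by linarith), le_inv_comm₀]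
      · rw [← one_div, le_div_iff₀ (by linarith)]
        nlinarith
      · linarith
      · have : q ^ (i + 1) ≤ q := by
          calc q ^ (i + 1) = q ^ i * q := pow_succ _ _
            _ ≤ 1 * q := mul_le_mul_of_nonneg_right (pow_le_one₀ h0.le (by linarith)) h0.le
            _ = q := one_mul q
        have : 0 < 1 - q ^ (i + 1) := by linarith
        positivity
      · have : q ^ (i + 1) ≤ q := by
          calc q ^ (i + 1) = q ^ i * q := pow_succ _ _
            _ ≤ 1 * q := mul_le_mul_of_nonneg_right (pow_le_one₀ h0.le (by linarith)) h0.le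
            _ = q := one_mul q
        linarith
    have h6 : q ^ (i + 1) = q * q ^ i := by ring
    linarith
  have hlim := hmul.hasProd.tendsto_prod_nat
  set Λ : ℝ := ∏' i : ℕ, (1 + q ^ (i + 1))⁻¹ with hΛ
  -- the functional equation
  have hit : ∀ n : ℕ, FE q (-q * q ^ n) = (∏ i ∈ range n, (1 + q ^ (i + 1))) * FE q (-q) := by
    intro n
    rw [FE_iter h0 h1 hq1 n]
    congr 1
    refine prod_congr rfl fun i _ => ?_
    ring
  have hF1 : Tendsto (fun n : ℕ => FE q (-q * q ^ n)) atTop (𝓝 1) := by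
    rw [tendsto_iff_norm_sub_tendsto_zero]
    have h2 : Tendsto (fun n : ℕ => 8 * q ^ n) atTop (𝓝 0) := by
      have := (tendsto_pow_atTop_nhds_zero_of_lt_one h0.le (by linarith : q < 1)).const_mul 8
      simpa using this
    refine squeeze_zero (fun n => norm_nonneg _) (fun n => ?_) h2
    have h3 : 0 < q ^ n := pow_pos h0 n
    have h4 : q ^ n ≤ 1 := pow_le_one₀ h0.le (by linarith)
    have h5 : |-q * q ^ n| = q * q ^ n := by
      rw [abs_mul, abs_neg, abs_of_pos h0, abs_of_pos h3]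
    rw [Real.norm_eq_abs]
    refine (FE_near h0 h1 (z := -q * q ^ n) ?_).trans ?_
    · rw [h5]
      nlinarith
    · rw [h5]
      nlinarith
  have hprod : Tendsto (fun n : ℕ => FE q (-q * q ^ n) *
      ∏ i ∈ range n, (1 + q ^ (i + 1))⁻¹) atTop (𝓝 (1 * Λ)) := hF1.mul hlim
  have hconst : ∀ n : ℕ, FE q (-q * q ^ n) * ∏ i ∈ range n, (1 + q ^ (i + 1))⁻¹ = FE q (-q) := by
    intro n
    rw [hit n, prod_inv_distrib]
    have : ∏ i ∈ range n, (1 + q ^ (i + 1)) ≠ 0 := by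
      rw [prod_ne_zero_iff]
      intro i _
      have := pow_pos h0 (i + 1)
      positivity
    field_simp
  have hFL : FE q (-q) = Λ := by
    simp only [hconst, one_mul] at hprod
    exact tendsto_nhds_unique tendsto_const_nhds hprod
  constructor
  · rw [← hFL]
    have := (tq_summable h0 h1 hq1).hasSum.tendsto_sum_nat
    exact this.comp (tendsto_add_atTop_nat 1)
  · have hnn : 0 ≤ Λ := ge_of_tendsto' hlim fun n => prod_nonneg fun i _ => by
      have := pow_pos h0 (i + 1)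
      positivity
    rcases hnn.lt_or_eq with h | h
    · exact h
    · exfalso
      have h2 : Tendsto (fun n : ℕ => FE q (-q * q ^ n)) atTop (𝓝 0) := by
        have e : (fun n : ℕ => FE q (-q * q ^ n)) = fun _ => (0 : ℝ) := by
          funext n
          rw [hit n, hFL, ← h, mul_zero]
        rw [e]
        exact tendsto_const_nhds
      exact zero_ne_one (tendsto_nhds_unique h2 hF1)

/-- the terms of the constants -/
theorem term_eq {ℓ : ℝ} (hℓ : 2 ≤ ℓ) (j : ℕ) :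
    (-1) ^ j * ℓ ^ (j * (j - 1)) / ∏ i ∈ range j, (ℓ ^ j - ℓ ^ i) = tq ℓ⁻¹ (-ℓ⁻¹) j := by
  have h0 : ℓ ≠ 0 := by linarith
  have h1 : ∏ i ∈ range j, (ℓ ^ j - ℓ ^ i) = ℓ ^ (j * j) * PQ ℓ⁻¹ j := by
    have h2 : ∀ i ∈ range j, ℓ ^ j - ℓ ^ i = ℓ ^ j * (1 - ℓ⁻¹ ^ (j - i)) := by
      intro i hi
      have hij : i < j := mem_range.1 hi
      have h3 : ℓ ^ j = ℓ ^ i * ℓ ^ (j - i) := by
        rw [← pow_add]
        congr 1
        omega
      have h4 : ℓ ^ j * ℓ⁻¹ ^ (j - i) = ℓ ^ i := by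
        rw [h3, inv_pow, mul_assoc, mul_inv_cancel₀ (pow_ne_zero _ h0), mul_one]
      rw [mul_sub, mul_one, h4]
    rw [prod_congr rfl h2, prod_mul_distrib, prod_const, card_range, ← pow_mul]
    congr 1
    unfold PQ
    rw [← prod_range_reflect]
    refine prod_congr rfl fun i hi => ?_
    have hij : i < j := mem_range.1 hi
    congr 2
    omega
  have hq0 : 0 < ℓ⁻¹ := by positivity
  have hq1 : ℓ⁻¹ ≤ 1 / 2 := by
    rw [one_div]
    exact inv_anti₀ (by norm_num) hℓ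
  have hP := PQ_pos hq0 hq1 j
  have hP0 : PQ ℓ⁻¹ j ≠ 0 := by linarith
  rw [h1]
  unfold tq
  have e : (-ℓ⁻¹) ^ j = (-1) ^ j * (ℓ ^ j)⁻¹ := by
    rw [← inv_pow, ← mul_pow]
    ring
  have e2 : ℓ ^ (j * j) = ℓ ^ (j * (j - 1)) * ℓ ^ j := by
    rw [← pow_add]
    congr 1
    cases j with
    | zero => rfl
    | succ n =>
      simp only [Nat.add_sub_cancel]
      ring
  rw [e, e2]
  have h5 : ℓ ^ (j * (j - 1)) ≠ 0 := pow_ne_zero _ h0
  have h6 : ℓ ^ j ≠ 0 := pow_ne_zero _ h0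
  field_simp

end Pool.Agent.Y515.SZ
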