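import Pool.Agent.Y164.SZ.Def
import Pool.Agent.Y515.SZ.EulA

/-!
# Project SZ (helper164): SZ-EUL
-/

set_option autoImplicit false

open Filter Finset Topology

namespace Pool.Agent.Y515.SZ

theorem t : Pool.Agent.Y164.SZ.S_EUL := by
  intro ℓ hℓ
  have h2 : (2 : ℝ) ≤ (ℓ : ℝ) := by exact_mod_cast hℓ
  have hq0 : 0 < ((ℓ : ℝ))⁻¹ := by positivity
  have hq1 : ((ℓ : ℝ))⁻¹ ≤ 1 / 2 := by
    rw [one_div]
    exact inv_anti₀ (by norm_num) h2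
  obtain ⟨h3, h4⟩ := main hq0 hq1
  refine ⟨?_, h4⟩
  have e : Pool.Agent.Y164.SZ.cK ℓ = fun K => ∑ j ∈ range (K + 1), tq ((ℓ : ℝ))⁻¹ (-((ℓ : ℝ))⁻¹) j := by
    funext K
    exact Finset.sum_congr rfl fun j _ => term_eq h2 j
  rw [e]
  exact h3

end Pool.Agent.Y515.SZ
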